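import Mathlib
import Pool.Agent.Y1.KN.Stm3

/-!
# An element of prime order needs dimension `p - 1`
-/

set_option autoImplicit false

namespace Pool.Agent.Y674.KN

open Polynomial Module
open Pool.Agent.Y1.KN Pool.Agent.TH170.MF

theorem end_order {V : Type*} [AddCommGroup V] [Module ℚ V] [FiniteDimensional ℚ V]
    (f : Module.End ℚ V) {p : ℕ} (hp : p.Prime) (h1 : f ^ p = 1) (h2 : f ≠ 1) :
    p - 1 ≤ finrank ℚ V := by
  have : Fact p.Prime := ⟨hp⟩
  have hΦ : Irreducible (cyclotomic p ℚ) := cyclotomic.irreducible_rat hp.pos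
  have hdvd : minpoly ℚ f ∣ cyclotomic p ℚ * (X - 1) := by
    rw [cyclotomic_prime_mul_X_sub_one]
    apply minpoly.dvd
    simp [h1]
  by_cases h : cyclotomic p ℚ ∣ minpoly ℚ f
  · have h3 := h.trans (LinearMap.minpoly_dvd_charpoly f)
    have h4 := natDegree_le_of_dvd h3 f.charpoly_monic.ne_zero
    rwa [natDegree_cyclotomic, Nat.totient_prime hp, f.charpoly_natDegree] at h4
  · exfalso
    have h3 : IsCoprime (cyclotomic p ℚ) (minpoly ℚ f) := (hΦ.coprime_iff_not_dvd).2 h
    have h4 : minpoly ℚ f ∣ X - 1 := h3.symm.dvd_of_dvd_mul_left hdvd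
    have h5 : aeval f (X - 1 : ℚ[X]) = 0 := by
      obtain ⟨q, hq⟩ := h4
      rw [hq, map_mul, minpoly.aeval, zero_mul]
    rw [map_sub, aeval_X, map_one, sub_eq_zero] at h5
    exact h2 h5

theorem order : P_order := by
  intro G X _ _ _ _ S γ p hS hp hγ hne
  obtain ⟨f, hf⟩ : ∃ f : Module.End ℚ S, ∀ s : S, ((f s : S) : X → ℚ) = tr γ (s : X → ℚ) :=
    ⟨(tr γ).restrict fun x hx => tr_mem hS γ hx, fun _ => rfl⟩
  have hpow : ∀ (n : ℕ) (s : S), (((f ^ n) s : S) : X → ℚ) = tr (γ ^ n) (s : X → ℚ) := by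
    intro n
    induction n with
    | zero =>
      intro s
      rw [pow_zero, pow_zero, tr_one]
      rfl
    | succ n ih =>
      intro s
      rw [pow_succ', pow_succ, Module.End.mul_apply, hf, ih, tr_tr]
  refine end_order f hp ?_ ?_
  · ext s : 1
    refine Subtype.ext ?_
    rw [hpow, hγ, tr_one]
    rfl
  · intro h
    apply hne
    intro s hs x
    have h1 := hf ⟨s, hs⟩
    rw [h] at h1
    exact (congrFun h1 x).symm

end Pool.Agent.Y674.KN
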